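import Pool.Agent.R751.PermG

set_option autoImplicit false

/-!
# The permanent of a random matrix over a finite field of odd order is equidistributed

`Pr[per A_n = 0] → 1/q`, and more generally `Pr[per A_n = v] → 1/q` for every `v`.
-/

namespace Pool.Agent.Results.MP_b575e9_co.PermanentEquidistributed

open Filter Topology

/-- The probability that a uniformly random `n × n` matrix over `F` has permanent `v`:
the number of matrices with permanent `v` divided by `q ^ (n ^ 2)`, where `q = |F|`. -/
noncomputable def prob (F : Type*) [Field F] (n : ℕ) (v : F) : ℝ :=
  (Nat.card {A : Matrix (Fin n) (Fin n) F // A.permanent = v} : ℝ) / (Nat.card F : ℝ) ^ (n ^ 2)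

/-- For every finite field `F` of odd order `q` and every `v` in `F`, the probability that the
permanent of a uniformly random `n × n` matrix over `F` equals `v` tends to `1 / q`; in particular
(`v = 0`) the probability that it vanishes tends to `1 / q`. -/
theorem result (F : Type*) [Field F] [Finite F] (hF : Odd (Nat.card F)) :
    Tendsto (fun n : ℕ => prob F n 0) atTop (𝓝 (1 / (Nat.card F : ℝ))) ∧
      ∀ v : F, Tendsto (fun n : ℕ => prob F n v) atTop (𝓝 (1 / (Nat.card F : ℝ))) :=
  ⟨Pool.Agent.R751.Perm.permanent_equidistributed F hF 0,
    fun v => Pool.Agent.R751.Perm.permanent_equidistributed F hF v⟩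

end Pool.Agent.Results.MP_b575e9_co.PermanentEquidistributed
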